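import Pool.Agent.H.MP_389529_an.A

set_option autoImplicit false
open Complex Filter Topology Finset BoundedContinuousFunction Module

namespace Pool.Agent.Results.MP_389529_an.Linear

open Pool.Agent.H.MP_389529_an

/-- `T` is strongly Kreiss bounded with constant at most `M`. -/
def SK {X : Type} [NormedAddCommGroup X] [NormedSpace ℂ X] (T : X →L[ℂ] X) (M : ℝ) : Prop :=
  spectrum ℂ T ⊆ Metric.closedBall 0 1 ∧
    ∀ k : ℕ, 1 ≤ k → ∀ l : ℂ, 1 < ‖l‖ → ‖resolvent T l ^ k‖ ≤ M / (‖l‖ - 1) ^ k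

theorem big (s : ℕ) (hs : 2 ≤ s) : ∃ (X : Type) (_ : NormedAddCommGroup X) (_ : NormedSpace ℂ X)
    (_ : FiniteDimensional ℂ X) (T : X →L[ℂ] X), 1 ≤ finrank ℂ X ∧ finrank ℂ X ≤ 2 * s ∧ SK T 1 ∧
      (s : ℝ) / 128 ≤ ‖T ^ (s ^ 2)‖ := by
  have s2 : (2 : ℝ) ≤ s := by exact_mod_cast hs
  obtain ⟨q, hq⟩ : ∃ q : ℝ, q = 1 - 1 / s ^ 2 := ⟨_, rfl⟩
  have q0 : 0 < 1 / (s : ℝ) ^ 2 := by positivity
  have q1 : 1 / (s : ℝ) ^ 2 ≤ 1 / 4 := one_div_le_one_div_of_le (by norm_num) (by nlinarith)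
  obtain ⟨b, b1, b2⟩ : ∃ b : Fin s → ℂ, (∀ j, ‖b j‖ = 1) ∧ ∀ j, (b j).im = (j : ℕ) / s := by
    refine ⟨fun j => ⟨√(1 - ((j : ℕ) / s) ^ 2), (j : ℕ) / s⟩, fun j => ?_, fun j => rfl⟩
    have : ((j : ℕ) : ℝ) / s ≤ 1 := (div_le_one (by linarith)).2 (by exact_mod_cast j.2.le)
    have : 0 ≤ ((j : ℕ) : ℝ) / s := by positivity
    rw [Complex.norm_def, normSq_mk, Real.mul_self_sqrt (by nlinarith), Real.sqrt_eq_one]
    ring
  have b0 : ∀ j, b j ≠ 0 := fun j => norm_ne_zero_iff.1 (by simp [b1])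
  obtain ⟨a, ea⟩ : ∃ a : Fin s ⊕ Fin s → ℂ, a = Sum.elim b fun j => q * b j := ⟨_, rfl⟩
  have ha : ∀ i, ‖a i‖ ≤ 1 := by
    rintro (j | j) <;> simp [ea, b1]
    rw [abs_le]; constructor <;> linarith
  obtain ⟨c, ec⟩ : ∃ c : Fin s ⊕ Fin s → ℂ,
    c = Sum.elim (fun j => (b j ^ s ^ 2)⁻¹) fun j => -(b j ^ s ^ 2)⁻¹ := ⟨_, rfl⟩
  obtain ⟨T, hT⟩ := exT a ha
  have up : ‖(ι a ha).rangeRestrict c‖ ≤ 64 := by
    refine (norm_le (f := ι a ha c) (by norm_num)).2 fun z => ?_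
    obtain ⟨y, hy⟩ : ∃ y : ℝ, ∀ j : Fin s, ‖z‖ * (((j : ℕ) : ℝ) + y) ^ 2 ≤
        2 * s ^ 2 * (‖z‖ - (b j * z).re) := by
      by_cases z0 : z = 0
      · exact ⟨0, by simp [z0]⟩
      have p := norm_pos_iff.2 z0
      refine ⟨s * z.im / ‖z‖, fun j => le_of_mul_le_mul_left ?_ p⟩
      have e1 := Complex.sq_norm z
      have e2 := Complex.sq_norm (b j)
      rw [normSq_apply] at e1 e2
      rw [b1] at e2
      have : ((j : ℕ) : ℝ) = s * (b j).im := by rw [b2]; field_simp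
      rw [this, mul_re]
      calc _ = s ^ 2 * (‖z‖ * (b j).im + z.im) ^ 2 := by field_simp
        _ ≤ s ^ 2 * ((‖z‖ * (b j).im + z.im) ^ 2 + (‖z‖ * (b j).re - z.re) ^ 2) := by
          gcongr; exact le_add_of_nonneg_right (sq_nonneg _)
        _ = _ := by linear_combination (-s ^ 2) * e1 - s ^ 2 * ‖z‖ ^ 2 * e2
    rw [ι_apply, Fintype.sum_sum_type, ← sum_add_distrib]
    refine (norm_sum_le_of_le _ (n := fun j : Fin s => 32 * (((j : ℕ) + 1 + y) / (1 + |(j : ℕ) + 1 + y|)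
      - ((j : ℕ) + y) / (1 + |(j : ℕ) + y|))) fun j _ => ?_).trans ?_
    · simp only [ea, ec, Sum.elim_inl, Sum.elim_inr, neg_mul, ← sub_eq_add_neg, ← mul_sub]
      rw [norm_mul, norm_inv, norm_pow, b1, one_pow, inv_one, one_mul, add_right_comm]
      exact (term s2 hq (b1 j) (hy j)).trans (mul_le_mul_of_nonneg_left (tel _) (by norm_num))
    · have := sum_range_sub (fun j : ℕ => ((j : ℝ) + y) / (1 + |j + y|)) s
      push_cast at this
      rw [← mul_sum, Fin.sum_univ_eq_sum_range (fun j : ℕ => ((j : ℝ) + 1 + y) / (1 + |j + 1 + y|)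
        - (j + y) / (1 + |j + y|)), this]
      have h : ∀ u : ℝ, |u / (1 + |u|)| ≤ 1 := fun u => by
        rw [abs_div, abs_of_pos (show 0 < 1 + |u| by positivity), div_le_one (by positivity)]; linarith
      linarith [abs_le.1 (h (s + y)), abs_le.1 (h (0 + y))]
  have pw : ∀ n, (T ^ n) ((ι a ha).rangeRestrict c) = (ι a ha).rangeRestrict (a ^ n * c) := fun n => by
    induction n with
    | zero => simp
    | succ n ih => rw [pow_succ', mul_apply_eq_comp, ih, hT, pow_succ', mul_assoc]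
  have low : (s : ℝ) / 2 ≤ ‖(T ^ (s ^ 2)) ((ι a ha).rangeRestrict c)‖ := by
    rw [pw]
    refine le_trans ?_ (norm_coe_le_norm (ι a ha _) 0)
    have e : ι a ha (a ^ s ^ 2 * c) 0 = (s * (1 - q ^ s ^ 2) : ℝ) := by
      simp [ι_apply, ea, ec, mul_pow, b0]
      ring
    have h1 := one_add_mul_le_pow (a := 1 / (s : ℝ) ^ 2) (by linarith) (s ^ 2)
    have h2 : q ^ s ^ 2 * (1 + 1 / (s : ℝ) ^ 2) ^ s ^ 2 ≤ 1 := by
      rw [← mul_pow]
      exact pow_le_one₀ (by nlinarith) (by nlinarith)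
    have h3 : 0 ≤ q ^ s ^ 2 := pow_nonneg (by linarith) _
    push_cast at h1
    rw [mul_one_div_cancel (by positivity)] at h1
    rw [e, norm_real]
    refine le_trans ?_ (le_abs_self _)
    nlinarith
  have d : ∀ l : ℂ, 1 < ‖l‖ → ∀ x, (‖l‖ - 1) * ‖x‖ ≤ ‖l • x - T x‖ := fun l hl x => by
    obtain ⟨c, rfl⟩ := (ι a ha).surjective_rangeRestrict x
    rw [hT]
    exact diss a ha c (norm_pos_iff.1 (by linarith))
  refine ⟨(ι a ha).range, inferInstance, inferInstance, inferInstance, T, ?_, ?_,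
    ⟨fun l hl => ?_, fun k hk l hl => ?_⟩, ?_⟩
  · refine finrank_pos_iff_exists_ne_zero.2
      ⟨(T ^ (s ^ 2)) ((ι a ha).rangeRestrict c), fun h => ?_⟩
    rw [h, norm_zero] at low
    linarith
  · simpa [two_mul] using (ι a ha).finrank_range_le
  · exact mem_closedBall_zero_iff.2 (not_lt.1 fun h => (res h (d l h)).1 hl)
  · obtain ⟨k, rfl⟩ : ∃ m, k = m + 1 := ⟨k - 1, by omega⟩
    exact (res hl (d l hl)).2 k
  · nlinarith [(T ^ (s ^ 2)).le_opNorm ((ι a ha).rangeRestrict c), norm_nonneg (T ^ (s ^ 2))]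

/-- `θ` is admissible. -/
def Admissible (θ : ℝ) : Prop :=
  0 ≤ θ ∧ ∀ M : ℝ, 1 ≤ M → ∃ C : ℝ, ∀ (X : Type) [NormedAddCommGroup X] [NormedSpace ℂ X]
    [FiniteDimensional ℂ X], 1 ≤ finrank ℂ X → ∀ T : X →L[ℂ] X, SK T M →
      ∀ n : ℕ, 1 ≤ n → ‖T ^ n‖ ≤ C * (finrank ℂ X : ℝ) ^ θ

theorem result (θ : ℝ) (h : Admissible θ) : 1 ≤ θ := by
  by_contra hn
  obtain ⟨C, hC⟩ := h.2 1 le_rfl
  have t := ((tendsto_rpow_atTop (show 0 < 1 - θ by linarith)).comp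
    tendsto_natCast_atTop_atTop).eventually_gt_atTop (128 * |C| * 2 ^ θ)
  obtain ⟨s, h1, h2⟩ := (t.and (eventually_ge_atTop 2)).exists
  obtain ⟨X, _, _, _, T, a1, a2, a3, a4⟩ := big s h2
  have s0 : (0 : ℝ) < s := by positivity
  have b := a4.trans ((hC X a1 T a3 _ (Nat.one_le_pow _ _ (by omega))).trans (mul_le_mul
    (le_abs_self C) (Real.rpow_le_rpow (by positivity) (show (finrank ℂ X : ℝ) ≤ 2 * s by
      exact_mod_cast a2) h.1) (by positivity) (abs_nonneg C)))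
  rw [Function.comp_apply, Real.rpow_sub s0, Real.rpow_one, lt_div_iff₀ (by positivity)] at h1
  rw [Real.mul_rpow (by norm_num) s0.le] at b
  linarith

end Pool.Agent.Results.MP_389529_an.Linear
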